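import Pool.Agent.P.MP_5d3202_gt.Defs

/-! Group lemmas on alternating products. -/

set_option autoImplicit false

namespace Pool.Agent.P.MP_5d3202_gt

section Mon
variable {G : Type*} [Monoid G]

@[simp] lemma altProd_zero (a b : G) : altProd a b 0 = 1 := rfl

lemma altProd_succ (a b : G) (k : ℕ) : altProd a b (k + 1) = a * altProd b a k := rfl

lemma altProd_succ' (a b : G) (k : ℕ) :
    altProd a b (k + 1) = altProd a b k * (if Even k then a else b) := by
  induction k generalizing a b with
  | zero => simp [altProd_succ]
  | succ k ih =>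
    rw [altProd_succ, ih b a, ← mul_assoc, ← altProd_succ]
    by_cases h : Even k <;> simp [h, Nat.even_add_one]

lemma altProd_add (a b : G) (j k : ℕ) :
    altProd a b (j + k) = altProd a b j * (if Even j then altProd a b k else altProd b a k) := by
  induction j generalizing a b with
  | zero => simp
  | succ j ih =>
    rw [Nat.add_right_comm, altProd_succ, ih b a, altProd_succ, mul_assoc]
    by_cases h : Even j <;> simp [h, Nat.even_add_one]

lemma altProd_two_mul (a b : G) (k : ℕ) : altProd a b (2 * k) = (a * b) ^ k := by
  induction k with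
  | zero => simp
  | succ k ih =>
    rw [show 2 * (k + 1) = 2 * k + 1 + 1 by ring, altProd_succ, altProd_succ, ih, pow_succ',
      mul_assoc]

lemma map_altProd {G' : Type*} [Monoid G'] (φ : G →* G') (a b : G) (k : ℕ) :
    φ (altProd a b k) = altProd (φ a) (φ b) k := by
  induction k generalizing a b with
  | zero => simp
  | succ k ih => rw [altProd_succ, altProd_succ, map_mul, ih]

lemma pow_eq_sq_of_braid {a b : G} {m : ℕ} (h : altProd a b m = altProd b a m) :
    (a * b) ^ m = altProd a b m * altProd a b m := by
  rw [← altProd_two_mul, two_mul, altProd_add]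
  split_ifs
  · rfl
  · rw [h]

lemma pow_comm_of_braid {a b : G} {m : ℕ} (h : altProd a b m = altProd b a m) :
    (a * b) ^ m = (b * a) ^ m := by
  rw [pow_eq_sq_of_braid h, pow_eq_sq_of_braid h.symm, h]

lemma mul_pow_swap (a b : G) (m : ℕ) : a * (b * a) ^ m = (a * b) ^ m * a := by
  induction m with
  | zero => simp
  | succ m ih => rw [pow_succ, ← mul_assoc, ih, pow_succ]; simp only [mul_assoc]

lemma commute_of_braid {a b : G} {m : ℕ} (h : altProd a b m = altProd b a m) :
    Commute a ((a * b) ^ m) := by
  unfold Commute SemiconjBy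
  rw [← mul_pow_swap, pow_comm_of_braid h]

lemma altProd_mul_rev {a b : G} (ha : a * a = 1) (hb : b * b = 1) (k : ℕ) :
    altProd a b k * (if Even k then altProd b a k else altProd a b k) = 1 := by
  induction k generalizing a b with
  | zero => simp
  | succ k ih =>
    have h1 := ih hb ha
    by_cases h : Even k
    · simp only [h, if_true, Nat.even_add_one, not_true, if_false] at h1 ⊢
      nth_rw 2 [altProd_succ']
      rw [altProd_succ, if_pos h, mul_assoc, ← mul_assoc (altProd b a k), h1, one_mul, ha]
    · simp only [h, if_false, Nat.even_add_one, not_false_eq_true, if_true] at h1 ⊢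
      nth_rw 2 [altProd_succ']
      rw [altProd_succ, if_neg h, mul_assoc, ← mul_assoc (altProd b a k), h1, one_mul, ha]

lemma pow_eq_one_of_braid {a b : G} (ha : a * a = 1) (hb : b * b = 1) {m : ℕ}
    (h : altProd a b m = altProd b a m) : (a * b) ^ m = 1 := by
  rw [pow_eq_sq_of_braid h]
  have := altProd_mul_rev ha hb m
  split_ifs at this
  · rwa [← h] at this
  · exact this

lemma prod_alternatingWord {S : Type*} (f : S → G) (s t : S) (k : ℕ) :
    ((CoxeterSystem.alternatingWord s t k).map f).prod =
      if Even k then altProd (f s) (f t) k else altProd (f t) (f s) k := by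
  induction k with
  | zero => simp [CoxeterSystem.alternatingWord]
  | succ k ih =>
    rw [CoxeterSystem.alternatingWord_succ', List.map_cons, List.prod_cons, ih]
    by_cases h : Even k <;> simp [h, Nat.even_add_one, altProd_succ]

end Mon

variable {S : Type*} (M : CoxeterMatrix S)

lemma gen_braid {s t : S} (hst : s ≠ t) (h0 : M s t ≠ 0) :
    altProd (gen M s) (gen M t) (M s t) = altProd (gen M t) (gen M s) (M s t) := by
  have h := PresentedGroup.mk_eq_mk_of_mul_inv_mem (rels := braidRels M)
    (x := altProd (FreeGroup.of s) (FreeGroup.of t) (M s t))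
    (y := altProd (FreeGroup.of t) (FreeGroup.of s) (M s t)) ⟨s, t, hst, h0, rfl⟩
  rw [map_altProd, map_altProd] at h
  exact h

/-- The universal property of the Artin group. -/
noncomputable def artinLift {G : Type*} [Group G] (f : S → G)
    (hf : ∀ s t, s ≠ t → M s t ≠ 0 →
      altProd (f s) (f t) (M s t) = altProd (f t) (f s) (M s t)) :
    ArtinGroup M →* G :=
  PresentedGroup.toGroup (f := f) (by
    rintro r ⟨s, t, hst, h0, rfl⟩
    rw [map_mul, map_inv, map_altProd, map_altProd, FreeGroup.lift_apply_of,
      FreeGroup.lift_apply_of, hf s t hst h0, mul_inv_cancel])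

@[simp] lemma artinLift_gen {G : Type*} [Group G] (f : S → G)
    (hf : ∀ s t, s ≠ t → M s t ≠ 0 →
      altProd (f s) (f t) (M s t) = altProd (f t) (f s) (M s t)) (s : S) :
    artinLift M f hf (gen M s) = f s :=
  PresentedGroup.toGroup.of _

end Pool.Agent.P.MP_5d3202_gt
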