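import Pool.Agent.P.MP_5d3202_gt.Form

/-! Choice of the deformation parameter and the fixed vector argument. -/

set_option autoImplicit false

namespace Pool.Agent.P.MP_5d3202_gt

open Complex ComplexConjugate Finset

variable {S : Type*} [Fintype S] [DecidableEq S] (M : CoxeterMatrix S)

lemma Q_uni {x : ℝ} {g : (S → ℂ) ≃ₗ[ℂ] (S → ℂ)} (hg : g ∈ Uni M x) (v : S → ℂ) :
    Q M x (g v) = Q M x v := by
  unfold Q
  rw [hg]

/-- A group of isometries with a bounded orbit of a negative vector moves some negative vector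
only in nonpositive directions. -/
lemma exists_min {x : ℝ} (Γ : Subgroup ((S → ℂ) ≃ₗ[ℂ] (S → ℂ))) (hΓ : Γ ≤ Uni M x)
    {v₀ : S → ℂ} (hv₀ : Q M x v₀ < 0) {R : ℝ} (hR : ∀ g ∈ Γ, ‖g v₀‖ ≤ R) :
    ∃ v, Q M x v < 0 ∧ ∀ g ∈ Γ, Q M x (g v - v) ≤ 0 := by
  let Ω : Set (S → ℂ) := {v | ∀ g ∈ Γ, ‖g v‖ ≤ R}
  have hcl : IsClosed Ω := by
    have : Ω = ⋂ g ∈ Γ, {v | ‖g v‖ ≤ R} := by
      ext v
      simp [Ω]
    rw [this]
    refine isClosed_biInter fun g _ => isClosed_le ?_ continuous_const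
    exact (g.toLinearMap.continuous_of_finiteDimensional).norm
  have hsub : Ω ⊆ Metric.closedBall 0 R := by
    intro v hv
    simpa using hv 1 Γ.one_mem
  have hcomp : IsCompact Ω := (isCompact_closedBall 0 R).of_isClosed_subset hcl hsub
  obtain ⟨v, hv, hmin⟩ := hcomp.exists_isMinOn ⟨v₀, hR⟩ (continuous_Q M x).continuousOn
  refine ⟨v, lt_of_le_of_lt (hmin hR) hv₀, fun g hg => ?_⟩
  have hmid : (1 / 2 : ℂ) • (v + g v) ∈ Ω := by
    intro k hk
    have h1 := hv k hk
    have h2 := hv (k * g) (Γ.mul_mem hk hg)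
    rw [LinearEquiv.mul_apply] at h2
    rw [map_smul, map_add, norm_smul]
    have h3 := norm_add_le (k v) (k (g v))
    simp only [one_div, norm_inv, Complex.norm_ofNat]
    linarith
  have h4 : Q M x v ≤ Q M x ((1 / 2 : ℂ) • (v + g v)) := hmin hmid
  rw [Q_mid, Q_uni M (hΓ hg)] at h4
  linarith

lemma Q_eq_zero_of_orth {x : ℝ} {v : S → ℂ} (h : ∀ t, H M x v (al t) = 0) : Q M x v = 0 := by
  unfold Q
  rw [H_expand]
  simp [h]

lemma psd_two [Finite M.Group] (v₀ : S → ℂ) : 0 ≤ Q M 2 v₀ := by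
  by_contra hneg
  obtain ⟨R, hR⟩ := (Set.finite_range fun w : M.Group => ‖sig M w v₀‖).bddAbove
  obtain ⟨v, hv, hmin⟩ := exists_min M (sig M).range (x := 2)
    (by rintro _ ⟨w, rfl⟩; exact sig_mem M w) (not_le.mp hneg) (R := R)
    (by rintro _ ⟨w, rfl⟩; exact hR ⟨w, rfl⟩)
  refine hv.ne (Q_eq_zero_of_orth M fun t => ?_)
  have h1 := hmin _ ⟨M.toCoxeterSystem.simple t, rfl⟩
  rw [sig_simple, T_apply, sub_sub_cancel_left, ← neg_smul, Q_smul, Q_al, norm_neg] at h1
  have h2 : ‖Par.one.r * H M Par.one.x v (al t)‖ = 0 := by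
    have := sq_nonneg ‖Par.one.r * H M Par.one.x v (al t)‖
    exact pow_eq_zero_iff (two_ne_zero) |>.mp (by linarith)
  simpa [Par.one] using h2

/-- The Euclidean quadratic form. -/
noncomputable def N2 (v : S → ℂ) : ℝ := ∑ s, ‖v s‖ ^ 2

lemma Q_eq (x : ℝ) (v : S → ℂ) :
    Q M x v = x * N2 v - ∑ s, ∑ t, cc M s t * (v s * conj (v t)).re := by
  unfold Q H N2 gram
  rw [re_sum, mul_sum, ← sum_sub_distrib]
  refine sum_congr rfl fun s _ => ?_
  rw [re_sum]
  have : ∀ t, (v s * (((if s = t then x else 0) - cc M s t : ℝ) : ℂ) * conj (v t)).re =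
      (if s = t then x * ‖v s‖ ^ 2 else 0) - cc M s t * (v s * conj (v t)).re := by
    intro t
    rw [mul_right_comm, re_mul_ofReal]
    split_ifs with h
    · subst h
      rw [mul_conj, normSq_eq_norm_sq, ofReal_re]
      ring
    · ring
  simp only [this, sum_sub_distrib, sum_ite_eq, mem_univ, if_true]

omit [DecidableEq S] in
lemma N2_nonneg (v : S → ℂ) : 0 ≤ N2 v := sum_nonneg fun _ _ => sq_nonneg _

omit [DecidableEq S] in
lemma N2_le (v : S → ℂ) : N2 v ≤ Fintype.card S * ‖v‖ ^ 2 := by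
  unfold N2
  calc ∑ s, ‖v s‖ ^ 2 ≤ ∑ _s : S, ‖v‖ ^ 2 :=
        sum_le_sum fun s _ => pow_le_pow_left₀ (norm_nonneg _) (norm_le_pi_norm v s) 2
    _ = _ := by simp

omit [Fintype S] in
lemma cc_nonneg (s t : S) : 0 ≤ cc M s t := by
  unfold cc
  split_ifs with h
  · exact le_rfl
  by_cases h0 : M s t = 0
  · simp [h0]
  have h2 : (2 : ℝ) ≤ M s t := by exact_mod_cast two_le M h h0
  refine mul_nonneg zero_le_two (Real.cos_nonneg_of_neg_pi_div_two_le_of_le ?_ ?_)
  · have : 0 ≤ Real.pi / M s t := by positivity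
    linarith [Real.pi_pos]
  · exact div_le_div_of_nonneg_left Real.pi_pos.le two_pos h2

omit [Fintype S] in
lemma cc_pos {s t : S} (h : (coxGraph M).Adj s t) : 0 < cc M s t := by
  obtain ⟨hne, h | h⟩ := h
  · unfold cc
    rw [if_neg hne]
    have h3 : (3 : ℝ) ≤ M s t := by exact_mod_cast h
    refine mul_pos two_pos (Real.cos_pos_of_mem_Ioo ⟨?_, ?_⟩)
    · have : 0 ≤ Real.pi / M s t := by positivity
      linarith [Real.pi_pos]
    · exact div_lt_div_of_pos_left Real.pi_pos two_pos (by linarith)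
  · simp [cc, hne, h]

lemma Q_abs_le (x : ℝ) (v : S → ℂ) : Q M x (fun s => (‖v s‖ : ℂ)) ≤ Q M x v := by
  rw [Q_eq, Q_eq]
  have e : N2 (fun s => (‖v s‖ : ℂ)) = N2 v := by simp [N2]
  rw [e]
  refine sub_le_sub_left (sum_le_sum fun s _ => sum_le_sum fun t _ => ?_) _
  refine mul_le_mul_of_nonneg_left ?_ (cc_nonneg M s t)
  refine (re_le_norm _).trans ?_
  rw [conj_ofReal, ← ofReal_mul, ofReal_re, norm_mul, norm_conj]

lemma perron {x : ℝ} (hpsd : ∀ v, 0 ≤ Q M x v) (hconn : (coxGraph M).Connected)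
    {v : S → ℂ} {u : S} (hu : v u = 0) (hv : Q M x v ≤ 0) : v = 0 := by
  have step : ∀ a b, (coxGraph M).Adj a b → v a = 0 → v b = 0 := by
    intro a b hab ha
    set D : ℝ := ∑ t, cc M t a * ‖v t‖ with hD
    have hH : H M x (fun s => (‖v s‖ : ℂ)) (al a) = -(D : ℂ) := by
      rw [H_al_right, hD]
      push_cast
      rw [← sum_neg_distrib]
      refine sum_congr rfl fun t _ => ?_
      by_cases h : t = a
      · subst h
        simp [ha]
      · rw [gram_ne M x h]
        push_cast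
        ring
    have key : ∀ ε : ℝ, 0 ≤ ε ^ 2 * x - 2 * (ε * D) := by
      intro ε
      have h1 := hpsd ((ε : ℂ) • al a + fun s => (‖v s‖ : ℂ))
      rw [Q_add, Q_smul, Q_al, H_smul_right, hH, conj_ofReal, ← ofReal_neg, ← ofReal_mul,
        ofReal_re, norm_real, Real.norm_eq_abs, sq_abs] at h1
      have h2 := Q_abs_le M x v
      linarith
    have hD0 : D ≤ 0 := by
      by_contra hpos
      have hpos' : 0 < D := not_le.mp hpos
      have hx : 0 < |x| + 1 := by positivity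
      have h1 := key (D / (|x| + 1))
      have h2 : 0 < D / (|x| + 1) := div_pos hpos' hx
      have h3 : D / (|x| + 1) * (|x| + 1) = D := div_mul_cancel₀ _ hx.ne'
      have h4 := le_abs_self x
      set ε := D / (|x| + 1)
      nlinarith [mul_pos h2 hpos', mul_pos h2 h2, mul_le_mul_of_nonneg_left h4 (sq_nonneg ε)]
    have hnn : ∀ t ∈ (univ : Finset S), 0 ≤ cc M t a * ‖v t‖ :=
      fun t _ => mul_nonneg (cc_nonneg M t a) (norm_nonneg _)
    have h5 := (sum_eq_zero_iff_of_nonneg hnn).mp (le_antisymm hD0 (sum_nonneg hnn)) b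
      (mem_univ b)
    exact norm_eq_zero.mp ((mul_eq_zero.mp h5).resolve_left (cc_pos M hab.symm).ne')
  funext t
  obtain ⟨w⟩ := hconn.preconnected u t
  induction w with
  | nil => exact hu
  | cons h _ ih => exact ih (step _ _ h hu)

lemma norm_al (s : S) : ‖(al s : S → ℂ)‖ = 1 := by
  simp [al, Pi.norm_single]

omit [DecidableEq S] in
lemma exists_third (h3 : 3 ≤ Fintype.card S) (s t : S) : ∃ u, u ≠ s ∧ u ≠ t := by
  classical
  by_contra hne
  push Not at hne
  have : (univ : Finset S) ⊆ {s, t} := by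
    intro u _
    by_cases h : u = s
    · simp [h]
    · simp [hne u h]
  have h1 := card_le_card this
  have h2 : ({s, t} : Finset S).card ≤ 2 := card_le_two
  rw [card_univ] at h1
  omega

lemma exists_par [Finite M.Group] (hconn : (coxGraph M).Connected) (h3 : 3 ≤ Fintype.card S) :
    (∀ s t, M s t ≠ 0) ∧ ∃ p : Par, (∃ v, Q M p.x v < 0) ∧
      (∃ η : ℝ, 0 < η ∧ ∀ (u : S) (v : S → ℂ), v u = 0 → η * ‖v‖ ^ 2 ≤ Q M p.x v) ∧
      ∀ s t, p.r ^ (2 * M s t) ≠ 1 := by
  have hne : Nonempty S := Fintype.card_pos_iff.mp (by omega)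
  obtain ⟨s₀⟩ := hne
  let X : Set ℝ := {x | ∀ v, 0 ≤ Q M x v}
  have h2X : (2 : ℝ) ∈ X := psd_two M
  have hbdd : BddBelow X := ⟨0, fun x hx => by simpa [Q_al] using hx (al s₀)⟩
  have hcl : IsClosed X := by
    have : X = ⋂ v, {x | 0 ≤ Q M x v} := by
      ext x
      simp [X]
    rw [this]
    refine isClosed_iInter fun v => isClosed_le continuous_const ?_
    simp only [Q_eq]
    fun_prop
  set x₁ := sInf X with hx₁
  have hx₁X : x₁ ∈ X := hcl.csInf_mem ⟨2, h2X⟩ hbdd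
  have hx₁2 : x₁ ≤ 2 := csInf_le hbdd h2X
  let K : Set (S → ℂ) := Metric.sphere 0 1 ∩ ⋃ u, {v | v u = 0}
  have hK : IsCompact K := (isCompact_sphere 0 1).inter_right
    (isClosed_iUnion_of_finite fun u => isClosed_eq (continuous_apply u) continuous_const)
  obtain ⟨δ, hδ, hδK⟩ := hK.exists_forall_le' (continuous_Q M x₁).continuousOn (a := 0) (by
    rintro v ⟨hv1, hv2⟩
    obtain ⟨u, hu⟩ := Set.mem_iUnion.mp hv2
    by_contra hle
    have := perron M hx₁X hconn hu (not_lt.mp hle)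
    simp [this] at hv1)
  have hδ' : ∀ (u : S) (v : S → ℂ), v u = 0 → δ * ‖v‖ ^ 2 ≤ Q M x₁ v := by
    intro u v hu
    by_cases hv : v = 0
    · simpa [hv] using hx₁X 0
    have hn : 0 < ‖v‖ := norm_pos_iff.mpr hv
    have h1 := hδK (((‖v‖⁻¹ : ℝ) : ℂ) • v) ⟨by
      simp [norm_smul, hn.ne'], Set.mem_iUnion.mpr ⟨u, by simp [hu]⟩⟩
    rw [Q_smul, norm_real, norm_inv, norm_norm, inv_pow, ← div_eq_inv_mul,
      le_div_iff₀ (by positivity)] at h1
    exact h1
  have hM : ∀ s t, M s t ≠ 0 := by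
    intro s t h0
    have hst : s ≠ t := by
      rintro rfl
      simp at h0
    obtain ⟨u, hus, hut⟩ := exists_third h3 s t
    have h1 := hδ' u (al s + al t) (by simp [al, hus, hut])
    have h2 : 0 < ‖(al s + al t : S → ℂ)‖ := by
      rw [norm_pos_iff]
      intro h
      have := congrFun h s
      simp [al, hst] at this
    rw [Q_add, Q_al, Q_al, H_al_al, gram_ne M _ hst.symm, cc_symm, cc, if_neg hst, h0,
      ofReal_re] at h1
    simp only [Nat.cast_zero, div_zero, Real.cos_zero] at h1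
    have := mul_pos hδ (pow_pos h2 2)
    linarith
  refine ⟨hM, ?_⟩
  have hn : (3 : ℝ) ≤ Fintype.card S := by exact_mod_cast h3
  have hfin : ((fun z : ℂ => 2 * z.re) ''
      ⋃ s : S, ⋃ t : S, (Polynomial.nthRootsFinset (2 * M s t) (1 : ℂ) : Set ℂ)).Finite :=
    (Set.finite_iUnion fun s => Set.finite_iUnion fun t => Finset.finite_toSet _).image _
  have hε : 0 < δ / (2 * Fintype.card S) := by positivity
  obtain ⟨x, ⟨hx1, hx2⟩, hxF⟩ :=
    (Set.Ioo_infinite (sub_lt_self x₁ hε)).exists_notMem_finite hfin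
  have hη : ∀ (u : S) (v : S → ℂ), v u = 0 → δ / 2 * ‖v‖ ^ 2 ≤ Q M x v := by
    intro u v hu
    have h1 := hδ' u v hu
    have h2 : Q M x v = Q M x₁ v - (x₁ - x) * N2 v := by
      rw [Q_eq, Q_eq]
      ring
    have h4 : (x₁ - x) * N2 v ≤ δ / (2 * Fintype.card S) * (Fintype.card S * ‖v‖ ^ 2) :=
      mul_le_mul (by linarith) (N2_le v) (N2_nonneg v) hε.le
    have h5 : δ / (2 * Fintype.card S) * (Fintype.card S * ‖v‖ ^ 2) = δ / 2 * ‖v‖ ^ 2 := by
      field_simp
    linarith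
  have hx0 : 0 < x := by
    obtain ⟨u, hu, -⟩ := exists_third h3 s₀ s₀
    have h1 := hη u (al s₀) (by simp [al, hu])
    rw [Q_al, norm_al] at h1
    linarith
  have hsq : 0 ≤ 1 - x ^ 2 / 4 := by nlinarith
  let r : ℂ := ⟨x / 2, Real.sqrt (1 - x ^ 2 / 4)⟩
  have hr : r * conj r = 1 := by
    rw [mul_conj, normSq_mk, Real.mul_self_sqrt hsq]
    norm_cast
    ring
  have hxr : (x : ℂ) = r + conj r := by
    rw [add_conj]
    congr 1
    simp only [r]
    ring
  refine ⟨⟨x, r, hr, hxr⟩, ?_, ⟨δ / 2, by positivity, hη⟩, fun s t h => hxF ?_⟩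
  · have : x ∉ X := fun h => absurd (csInf_le hbdd h) (not_le.mpr hx2)
    simpa [X] using this
  · refine ⟨r, Set.mem_iUnion.mpr ⟨s, Set.mem_iUnion.mpr ⟨t, ?_⟩⟩, ?_⟩
    · have hpos : 0 < 2 * M s t := by
        have := hM s t
        omega
      exact (Polynomial.mem_nthRootsFinset hpos 1).mpr h
    · simp only [r]
      ring

end Pool.Agent.P.MP_5d3202_gt
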