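import Pool.Agent.P.MP_5d3202_gt.Form

/-! Positivity of roots, Matsumoto's theorem and conjugation by the Garside element. -/

set_option autoImplicit false

namespace Pool.Agent.P.MP_5d3202_gt

open Complex ComplexConjugate Finset CoxeterSystem

variable {S : Type*} (M : CoxeterMatrix S)

/-- The Coxeter system of `M`. -/
abbrev cs : CoxeterSystem M M.Group := M.toCoxeterSystem

lemma greedy (n : ℕ) : ∀ (w : M.Group) (s t : S), (cs M).length w = n →
    ¬ (cs M).IsRightDescent w s →
    ∃ (k : ℕ) (v : M.Group), w = v * (cs M).wordProd (alternatingWord s t k) ∧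
      (cs M).length w = (cs M).length v + k ∧
      ¬ (cs M).IsRightDescent v s ∧ ¬ (cs M).IsRightDescent v t := by
  induction n with
  | zero =>
    intro w s t hw hs
    refine ⟨0, w, by simp [alternatingWord], by simp, hs, ?_⟩
    unfold IsRightDescent
    omega
  | succ n ih =>
    intro w s t hw hs
    by_cases ht : (cs M).IsRightDescent w t
    · have h1 := (cs M).isRightDescent_iff.mp ht
      have h2 := (cs M).isRightDescent_iff_not_isRightDescent_mul.mp ht
      obtain ⟨k, v, hv, hl, hvt, hvs⟩ := ih (w * (cs M).simple t) t s (by omega) h2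
      refine ⟨k + 1, v, ?_, by omega, hvs, hvt⟩
      rw [alternatingWord_succ, wordProd_concat, ← mul_assoc, ← hv,
        simple_mul_simple_cancel_right]
    · exact ⟨0, w, by simp [alternatingWord], by simp, hs, ht⟩

lemma le_of_length {s t : S} (h0 : M s t ≠ 0) {k : ℕ} {v : M.Group}
    (h : (cs M).length (v * (cs M).wordProd (alternatingWord s t k)) = (cs M).length v + k) :
    k ≤ M s t := by
  by_contra hk
  apply (cs M).not_isReduced_alternatingWord s t h0 (not_le.mp hk)
  have h1 := (cs M).length_mul_le v ((cs M).wordProd (alternatingWord s t k))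
  have h2 := (cs M).length_wordProd_le (alternatingWord s t k)
  unfold CoxeterSystem.IsReduced
  rw [length_alternatingWord] at h2 ⊢
  omega

variable [Fintype S] [DecidableEq S]

/-- Vectors with nonnegative real coordinates. -/
def NN (v : S → ℂ) : Prop := ∀ u, 0 ≤ (v u).re ∧ (v u).im = 0

omit [Fintype S] in
lemma NN_al (s : S) : NN (al s) := by
  intro u
  by_cases h : u = s
  · subst h
    simp [al]
  · simp [al, h]

omit [Fintype S] [DecidableEq S] in
lemma NN.comb {v w : S → ℂ} (hv : NN v) (hw : NN w) {a b : ℝ} (ha : 0 ≤ a) (hb : 0 ≤ b) :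
    NN ((a : ℂ) • v + (b : ℂ) • w) := by
  intro u
  have h1 := hv u
  have h2 := hw u
  simp only [Pi.add_apply, Pi.smul_apply, smul_eq_mul, add_re, re_ofReal_mul, add_im,
    im_ofReal_mul, h1.2, h2.2, mul_zero, add_zero, and_true]
  exact add_nonneg (mul_nonneg ha h1.1) (mul_nonneg hb h2.1)

omit [Fintype S] [DecidableEq S] in
lemma NN.eq_zero {v : S → ℂ} (hv : NN v) (hv' : NN (-v)) : v = 0 := by
  funext u
  have h1 := hv u
  have h2 := hv' u
  simp only [Pi.neg_apply, neg_re] at h2
  apply Complex.ext
  · simp only [Pi.zero_apply, zero_re]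
    linarith [h1.1, h2.1]
  · simpa using h1.2

omit [Fintype S] in
lemma al_ne_zero (s : S) : (al s : S → ℂ) ≠ 0 := by
  intro h
  have := congrFun h s
  simp [al] at this

lemma sig_alt {s t : S} (hst : s ≠ t) (h0 : M s t ≠ 0) {k : ℕ} (hk : k + 1 ≤ M s t) :
    ∃ a b : ℝ, 0 ≤ a ∧ 0 ≤ b ∧
      sig M ((cs M).wordProd (alternatingWord s t k)) (al s) =
        (a : ℂ) • al s + (b : ℂ) • al t := by
  have hm := two_le M hst h0
  unfold wordProd
  rw [prod_alternatingWord]
  by_cases h : Even k
  · have h1 := alt_apply M Par.one hst h0 k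
    rw [if_pos h] at h1 ⊢
    refine ⟨_, _, U_nonneg hm hk, U_nonneg hm (show k ≤ M s t by omega), ?_⟩
    rw [map_altProd, sig_simple, sig_simple, h1]
    simp [Par.one]
  · have h1 := alt_apply M Par.one hst.symm (by rwa [M.symmetric t s]) k
    rw [if_neg h] at h1 ⊢
    refine ⟨_, _, U_nonneg hm (show k ≤ M s t by omega), U_nonneg hm hk, ?_⟩
    rw [map_altProd, sig_simple, sig_simple, h1, M.symmetric t s, add_comm]
    simp [Par.one]

lemma pos_root (hM : ∀ s t, M s t ≠ 0) (n : ℕ) : ∀ (w : M.Group) (s : S),
    (cs M).length w = n → ¬ (cs M).IsRightDescent w s → NN (sig M w (al s)) := by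
  induction n using Nat.strong_induction_on with
  | _ n ih =>
    intro w s hw hs
    by_cases h1 : w = 1
    · subst h1
      rw [map_one]
      exact NN_al s
    obtain ⟨t, ht⟩ := (cs M).exists_rightDescent_of_ne_one h1
    have hst : s ≠ t := by
      rintro rfl
      exact hs ht
    obtain ⟨k, v, hv, hl, hvs, hvt⟩ := greedy M n w s t hw hs
    have hk0 : k ≠ 0 := by
      rintro rfl
      apply hvt
      simp only [alternatingWord, wordProd_nil, mul_one] at hv
      rwa [← hv]
    have hk : k + 1 ≤ M s t := by
      rw [M.symmetric s t]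
      apply le_of_length M (hM t s) (v := v)
      rw [alternatingWord_succ, wordProd_concat, ← mul_assoc, ← hv,
        (cs M).not_isRightDescent_iff.mp hs]
      omega
    obtain ⟨a, b, ha, hb, hab⟩ := sig_alt M hst (hM s t) hk
    rw [hv, map_mul, LinearEquiv.mul_apply, hab, map_add, map_smul, map_smul]
    exact (ih _ (by omega) v s rfl hvs).comb (ih _ (by omega) v t rfl hvt) ha hb

lemma neg_root (hM : ∀ s t, M s t ≠ 0) {w : M.Group} {s : S}
    (hs : (cs M).IsRightDescent w s) : NN (-(sig M w (al s))) := by
  have h := pos_root M hM _ _ s rfl ((cs M).isRightDescent_iff_not_isRightDescent_mul.mp hs)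
  rw [map_mul, LinearEquiv.mul_apply, sig_simple, T_al_self, map_smul] at h
  simpa [Par.one] using h

lemma both_descents (hM : ∀ s t, M s t ≠ 0) {w : M.Group} {s t : S} (hst : s ≠ t)
    (hs : (cs M).IsRightDescent w s) (ht : (cs M).IsRightDescent w t) :
    ∃ v : M.Group, w = v * (cs M).wordProd (alternatingWord s t (M s t)) ∧
      (cs M).length w = (cs M).length v + M s t := by
  have h1 := (cs M).isRightDescent_iff.mp ht
  have h2 := (cs M).isRightDescent_iff_not_isRightDescent_mul.mp ht
  obtain ⟨k, v, hv, hl, hvt, hvs⟩ := greedy M _ (w * (cs M).simple t) t s rfl h2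
  have hw : w = v * (cs M).wordProd (alternatingWord s t (k + 1)) := by
    rw [alternatingWord_succ, wordProd_concat, ← mul_assoc, ← hv,
      simple_mul_simple_cancel_right]
  have hle : k + 1 ≤ M s t := by
    apply le_of_length M (hM s t) (v := v)
    rw [← hw]
    omega
  rcases hle.eq_or_lt with he | hlt
  · exact ⟨v, he ▸ hw, by omega⟩
  · exfalso
    obtain ⟨a, b, ha, hb, hab⟩ := sig_alt M hst (hM s t) (k := k + 1) hlt
    have hp : NN (sig M w (al s)) := by
      rw [hw, map_mul, LinearEquiv.mul_apply, hab, map_add, map_smul, map_smul]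
      exact (pos_root M hM _ v s rfl hvs).comb (pos_root M hM _ v t rfl hvt) ha hb
    have := hp.eq_zero (neg_root M hM hs)
    exact al_ne_zero s ((sig M w).map_eq_zero_iff.mp this)

lemma matsumoto (hM : ∀ s t, M s t ≠ 0) {G : Type*} [Monoid G] (f : S → G)
    (hf : ∀ s t, s ≠ t → altProd (f s) (f t) (M s t) = altProd (f t) (f s) (M s t))
    (n : ℕ) : ∀ ω ω' : List S, ω.length = n → ω'.length = n →
      (cs M).length ((cs M).wordProd ω) = n → (cs M).wordProd ω = (cs M).wordProd ω' →
      (ω.map f).prod = (ω'.map f).prod := by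
  induction n with
  | zero =>
    intro ω ω' h h' _ _
    rw [List.length_eq_zero_iff.mp h, List.length_eq_zero_iff.mp h']
  | succ n ih =>
    intro ω ω' h h' hl he
    obtain rfl | ⟨ω₁, s, rfl⟩ := List.eq_nil_or_concat ω
    · simp at h
    obtain rfl | ⟨ω₂, t, rfl⟩ := List.eq_nil_or_concat ω'
    · simp at h'
    have hl₁ : ω₁.length = n := by simpa using h
    have hl₂ : ω₂.length = n := by simpa using h'
    set w := (cs M).wordProd (ω₁.concat s) with hw
    have e₁ : w * (cs M).simple s = (cs M).wordProd ω₁ := by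
      rw [hw, wordProd_concat, simple_mul_simple_cancel_right]
    have e₂ : w * (cs M).simple t = (cs M).wordProd ω₂ := by
      rw [he, wordProd_concat, simple_mul_simple_cancel_right]
    have d₁ : (cs M).IsRightDescent w s := by
      unfold IsRightDescent
      have := (cs M).length_wordProd_le ω₁
      rw [e₁]
      omega
    have d₂ : (cs M).IsRightDescent w t := by
      unfold IsRightDescent
      have := (cs M).length_wordProd_le ω₂
      rw [e₂]
      omega
    have r₁ : (cs M).length ((cs M).wordProd ω₁) = n := by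
      have := (cs M).isRightDescent_iff.mp d₁
      rw [e₁] at this
      omega
    have r₂ : (cs M).length ((cs M).wordProd ω₂) = n := by
      have := (cs M).isRightDescent_iff.mp d₂
      rw [e₂] at this
      omega
    simp only [List.concat_eq_append, List.map_append, List.prod_append, List.map_cons,
      List.map_nil, List.prod_cons, List.prod_nil, mul_one]
    by_cases hst : s = t
    · subst hst
      rw [ih ω₁ ω₂ hl₁ hl₂ r₁ (e₁.symm.trans e₂)]
    obtain ⟨v, hv, hlv⟩ := both_descents M hM hst d₁ d₂
    obtain ⟨ν, hν, rfl⟩ := (cs M).exists_isReduced v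
    obtain ⟨k, hk⟩ : ∃ k, M s t = k + 1 := Nat.exists_eq_succ_of_ne_zero (hM s t)
    have hv' : w = (cs M).wordProd ν * (cs M).wordProd (alternatingWord t s (k + 1)) := by
      have hb := (cs M).wordProd_braidWord_eq s t
      unfold braidWord at hb
      rw [M.symmetric t s] at hb
      rw [hv, hb, hk]
    rw [hk] at hv
    have hνl : ν.length + k = n := by
      rw [hν.eq] at hlv
      omega
    have g₁ := ih ω₁ (ν ++ alternatingWord s t k) hl₁ (by simpa using hνl) r₁ (by
      rw [← e₁, hv', alternatingWord_succ, wordProd_concat, wordProd_append, ← mul_assoc,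
        simple_mul_simple_cancel_right])
    have g₂ := ih ω₂ (ν ++ alternatingWord t s k) hl₂ (by simpa using hνl) r₂ (by
      rw [← e₂, hv, alternatingWord_succ, wordProd_concat, wordProd_append, ← mul_assoc,
        simple_mul_simple_cancel_right])
    have b₁ : ((alternatingWord s t k).map f).prod * f s =
        ((alternatingWord t s (k + 1)).map f).prod := by
      simp [alternatingWord_succ]
    have b₂ : ((alternatingWord t s k).map f).prod * f t =
        ((alternatingWord s t (k + 1)).map f).prod := by
      simp [alternatingWord_succ]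
    have hb := hf s t hst
    rw [hk] at hb
    rw [g₁, g₂, List.map_append, List.map_append, List.prod_append, List.prod_append, mul_assoc,
      mul_assoc, b₁, b₂, prod_alternatingWord, prod_alternatingWord, hb]

lemma sig_faithful (hM : ∀ s t, M s t ≠ 0) {w : M.Group} (h : sig M w = 1) : w = 1 := by
  by_contra h1
  obtain ⟨t, ht⟩ := (cs M).exists_rightDescent_of_ne_one h1
  have h2 := neg_root M hM ht
  rw [h] at h2
  exact al_ne_zero t ((NN_al t).eq_zero h2)

lemma expand (g : (S → ℂ) ≃ₗ[ℂ] (S → ℂ)) (v : S → ℂ) : g v = ∑ t, v t • g (al t) := by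
  conv_lhs => rw [pi_eq_sum_univ' v]
  simp only [map_sum, map_smul]
  rfl

lemma longest_conj (hM : ∀ s t, M s t ≠ 0) {w : M.Group}
    (hw : ∀ u : M.Group, (cs M).length u ≤ (cs M).length w) (s : S) :
    ∃ t, w * (cs M).simple s = (cs M).simple t * w := by
  have hd : ∀ (w' : M.Group), (cs M).length w' = (cs M).length w → ∀ t,
      NN (-(sig M w' (al t))) := by
    intro w' hw' t
    apply neg_root M hM
    unfold IsRightDescent
    have h1 := hw (w' * (cs M).simple t)
    have h2 := (cs M).length_mul_simple_ne w' t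
    omega
  have h1 := hd w rfl s
  have h2 := hd w⁻¹ ((cs M).length_inv w)
  set y := sig M w (al s) with hy
  have hy0 : y ≠ 0 := fun h => al_ne_zero s ((sig M w).map_eq_zero_iff.mp h)
  obtain ⟨t, ht⟩ := Function.ne_iff.mp hy0
  have hback : sig M w⁻¹ y = al s := by
    rw [hy, ← LinearEquiv.mul_apply, ← map_mul, inv_mul_cancel, map_one]
    rfl
  have hyt : 0 < (-y t).re := by
    rcases (h1 t).1.eq_or_lt with h | h
    · exfalso
      apply ht
      have h3 := (h1 t).2
      simp only [Pi.neg_apply, neg_re, neg_im, neg_eq_zero] at h h3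
      apply Complex.ext
      · simp only [Pi.zero_apply, zero_re]
        linarith
      · simpa using h3
    · exact h
  have hz : ∀ u, u ≠ s → sig M w⁻¹ (al t) u = 0 := by
    intro u hu
    have e1 := congrFun hback u
    rw [expand] at e1
    have e2 : ∑ t', (-y t').re * (-(sig M w⁻¹ (al t')) u).re = 0 := by
      have e3 := congrArg Complex.re e1
      simp only [al, Pi.single_eq_of_ne hu, zero_re] at e3
      rw [Finset.sum_apply, re_sum] at e3
      rw [← e3]
      refine sum_congr rfl fun t' _ => ?_
      have a1 := (h1 t').2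
      simp only [Pi.neg_apply, neg_im, neg_eq_zero] at a1
      simp only [Pi.smul_apply, smul_eq_mul, mul_re, a1, zero_mul, sub_zero, neg_re, neg_mul_neg]
      rfl
    have e2' := (sum_eq_zero_iff_of_nonneg
      (fun t' _ => mul_nonneg (h1 t').1 (h2 t' u).1)).mp e2
    have e4 := (mul_eq_zero.mp (e2' t (mem_univ t))).resolve_left hyt.ne'
    have e5 := (h2 t u).2
    simp only [Pi.neg_apply, neg_re, neg_im, neg_eq_zero] at e4 e5
    exact Complex.ext e4 e5
  have hb : sig M w⁻¹ (al t) = (sig M w⁻¹ (al t) s) • al s := by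
    funext u
    by_cases hu : u = s
    · subst hu
      simp [al]
    · rw [hz u hu]
      simp [al, hu]
  set b := sig M w⁻¹ (al t) s with hbdef
  have hbb : b * conj b = 1 := by
    have e1 := sig_mem M w⁻¹ (al t) (al t)
    rw [hb, H_smul_left, H_smul_right, H_al_al, H_al_al, gram_self, gram_self] at e1
    push_cast at e1
    linear_combination (1 / 2) * e1
  have hc := conj_T M Par.one (sig_mem M w⁻¹) hbb hb
  refine ⟨t, ?_⟩
  have : (w⁻¹ * (cs M).simple t) * ((cs M).simple s * w⁻¹)⁻¹ = 1 := by
    apply sig_faithful M hM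
    rw [map_mul, map_inv, map_mul, map_mul, sig_simple, sig_simple, hc, mul_inv_cancel]
  rw [mul_inv_eq_one] at this
  calc w * (cs M).simple s = w * ((cs M).simple s * w⁻¹) * w := by group
    _ = w * (w⁻¹ * (cs M).simple t) * w := by rw [this]
    _ = (cs M).simple t * w := by group

lemma garside_conj (hM : ∀ s t, M s t ≠ 0) {Δ : ArtinGroup M} (hΔ : IsGarside M Δ) (s : S) :
    ∃ t, Δ * gen M s = gen M t * Δ := by
  obtain ⟨ω, hω, hmax, rfl⟩ := hΔ
  have hω' : (cs M).length ((cs M).wordProd ω) = ω.length := hω
  obtain ⟨t, ht⟩ := longest_conj M hM (w := (cs M).wordProd ω) (fun u => hω' ▸ hmax u) s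
  obtain ⟨ν, hν, hνe⟩ := (cs M).exists_isReduced ((cs M).wordProd ω * (cs M).simple s)
  have hl : ν.length + 1 = ω.length := by
    have h1 := hmax ((cs M).wordProd ω * (cs M).simple s)
    have h2 := (cs M).length_mul_simple ((cs M).wordProd ω) s
    have h3 : (cs M).length ((cs M).wordProd ω * (cs M).simple s) = ν.length := by
      rw [hνe]; exact hν
    change (cs M).length _ ≤ _ at h1
    omega
  have hbr := fun s t (hst : s ≠ t) => gen_braid M hst (hM s t)
  have e₁ := matsumoto M hM (gen M) hbr _ ω (ν.concat s) rfl (by simpa using hl) hω' (by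
    rw [wordProd_concat, ← hνe, simple_mul_simple_cancel_right])
  have e₂ := matsumoto M hM (gen M) hbr _ ω (t :: ν) rfl (by simpa using hl) hω' (by
    rw [wordProd_cons, ← hνe, ht, simple_mul_simple_cancel_left])
  refine ⟨t, ?_⟩
  simp only [List.concat_eq_append, List.map_append, List.prod_append, List.map_cons,
    List.map_nil, List.prod_cons, List.prod_nil, mul_one] at e₁ e₂
  calc (ω.map (gen M)).prod * gen M s = gen M t * (ν.map (gen M)).prod * gen M s := by rw [e₂]
    _ = gen M t * (ω.map (gen M)).prod := by rw [mul_assoc, ← e₁]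

end Pool.Agent.P.MP_5d3202_gt
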