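import Mathlib

/-!
Artin-Tits groups, their parabolic generating sets and word lengths.
A Coxeter matrix is Mathlib's `CoxeterMatrix S`; the entry `0` stands for `∞`.
-/

set_option autoImplicit false

namespace Pool.Agent.P.MP_5d3202_gt

/-- The alternating product `Π(a, b; m) = a b a ⋯` of length `m`. -/
def altProd {G : Type*} [Monoid G] (a b : G) : ℕ → G
  | 0 => 1
  | m + 1 => a * altProd b a m

variable {S : Type*} (M : CoxeterMatrix S)

/-- The braid relators `Π(s, t; m) Π(t, s; m)⁻¹` for `s ≠ t` with `m = m_{s,t} < ∞`. -/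
def braidRels : Set (FreeGroup S) :=
  {r | ∃ s t : S, s ≠ t ∧ M s t ≠ 0 ∧
    r = altProd (FreeGroup.of s) (FreeGroup.of t) (M s t) *
      (altProd (FreeGroup.of t) (FreeGroup.of s) (M s t))⁻¹}

/-- The Artin-Tits group of `M`. -/
abbrev ArtinGroup : Type _ := PresentedGroup (braidRels M)

/-- The standard generator attached to `s`. -/
def gen (s : S) : ArtinGroup M := PresentedGroup.of s

/-- The Coxeter graph: an edge `{s, t}` whenever `m_{s,t} ≥ 3` (the value `∞` included). -/
def coxGraph : SimpleGraph S where
  Adj s t := s ≠ t ∧ (3 ≤ M s t ∨ M s t = 0)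
  symm := ⟨fun s t h => ⟨h.1.symm, by rw [M.symmetric t s]; exact h.2⟩⟩
  loopless := ⟨fun _ h => h.1 rfl⟩

/-- The standard parabolic subgroup `A_T`. -/
def parabolic (T : Set S) : Subgroup (ArtinGroup M) := Subgroup.closure (gen M '' T)

/-- `T` is proper and irreducible (nonempty with connected induced Coxeter graph). -/
def ProperIrred (T : Set S) : Prop := T ≠ Set.univ ∧ ((coxGraph M).induce T).Connected

/-- `Δ` is the positive lift of a longest element of the Coxeter group: the product of the
generators along a reduced word of maximal length. -/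
def IsGarside (Δ : ArtinGroup M) : Prop :=
  ∃ ω : List S, M.toCoxeterSystem.IsReduced ω ∧
    (∀ w : M.Group, M.toCoxeterSystem.length w ≤ ω.length) ∧ Δ = (ω.map (gen M)).prod

/-- `X_P`: the union of the proper irreducible standard parabolic subgroups and of `⟨Δ²⟩`. -/
def XP (Δ : ArtinGroup M) : Set (ArtinGroup M) :=
  {g | ∃ T : Set S, ProperIrred M T ∧ g ∈ parabolic M T} ∪ (Subgroup.zpowers (Δ ^ 2) : Set _)

/-- `X_NP`: the union of the normalizers of the proper irreducible standard parabolic
subgroups. -/
def XNP : Set (ArtinGroup M) :=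
  {g | ∃ T : Set S, ProperIrred M T ∧
    g ∈ Subgroup.normalizer (parabolic M T : Set (ArtinGroup M))}

/-- The word length `d_X(1, g)`: the least number of factors from `X ∪ X⁻¹` with product `g`. -/
noncomputable def wordLength {G : Type*} [Group G] (X : Set G) (g : G) : ℕ :=
  sInf {n | ∃ l : List G, l.length = n ∧ (∀ x ∈ l, x ∈ X ∨ x⁻¹ ∈ X) ∧ l.prod = g}

end Pool.Agent.P.MP_5d3202_gt
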