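import Pool.Agent.P.MP_5d3202_gt.Alt

/-! The deformed reflection representation and its invariant Hermitian form. -/

set_option autoImplicit false

namespace Pool.Agent.P.MP_5d3202_gt

open Complex ComplexConjugate Finset

variable {S : Type*} [Fintype S] [DecidableEq S] (M : CoxeterMatrix S)

/-- Off-diagonal coefficients `2 cos (π / m)`. -/
noncomputable def cc (s t : S) : ℝ := if s = t then 0 else 2 * Real.cos (Real.pi / M s t)

/-- The Gram matrix `x I - C`. -/
noncomputable def gram (x : ℝ) (s t : S) : ℝ := (if s = t then x else 0) - cc M s t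

/-- The Hermitian form. -/
noncomputable def H (x : ℝ) (v w : S → ℂ) : ℂ :=
  ∑ s, ∑ t, v s * (gram M x s t : ℂ) * conj (w t)

/-- The simple roots. -/
def al (s : S) : S → ℂ := Pi.single s 1

/-- The quadratic form. -/
noncomputable def Q (x : ℝ) (v : S → ℂ) : ℝ := (H M x v v).re

omit [Fintype S] in
lemma cc_symm (s t : S) : cc M s t = cc M t s := by
  unfold cc
  rw [M.symmetric s t]
  by_cases h : s = t
  · simp [h]
  · simp [h, Ne.symm h]

omit [Fintype S] in
lemma gram_symm (x : ℝ) (s t : S) : gram M x s t = gram M x t s := by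
  unfold gram
  rw [cc_symm]
  by_cases h : s = t
  · simp [h]
  · simp [h, Ne.symm h]

omit [Fintype S] in
lemma gram_self (x : ℝ) (s : S) : gram M x s s = x := by simp [gram, cc]

omit [Fintype S] in
lemma gram_ne (x : ℝ) {s t : S} (h : s ≠ t) : gram M x s t = - cc M s t := by simp [gram, h]

lemma H_add_left (x : ℝ) (u v w : S → ℂ) : H M x (u + v) w = H M x u w + H M x v w := by
  simp only [H, Pi.add_apply, add_mul, sum_add_distrib]

lemma H_add_right (x : ℝ) (u v w : S → ℂ) : H M x u (v + w) = H M x u v + H M x u w := by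
  simp only [H, Pi.add_apply, map_add, mul_add, sum_add_distrib]

lemma H_sub_left (x : ℝ) (u v w : S → ℂ) : H M x (u - v) w = H M x u w - H M x v w := by
  simp only [H, Pi.sub_apply, sub_mul, sum_sub_distrib]

lemma H_sub_right (x : ℝ) (u v w : S → ℂ) : H M x u (v - w) = H M x u v - H M x u w := by
  simp only [H, Pi.sub_apply, map_sub, mul_sub, sum_sub_distrib]

lemma H_smul_left (x : ℝ) (c : ℂ) (v w : S → ℂ) : H M x (c • v) w = c * H M x v w := by
  simp only [H, Pi.smul_apply, smul_eq_mul, mul_sum, mul_assoc]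

lemma H_smul_right (x : ℝ) (c : ℂ) (v w : S → ℂ) : H M x v (c • w) = conj c * H M x v w := by
  simp only [H, Pi.smul_apply, smul_eq_mul, mul_sum, map_mul]
  refine sum_congr rfl fun s _ => sum_congr rfl fun t _ => by ring

lemma H_conj (x : ℝ) (v w : S → ℂ) : conj (H M x v w) = H M x w v := by
  simp only [H, map_sum, map_mul, conj_ofReal, conj_conj]
  rw [sum_comm]
  refine sum_congr rfl fun s _ => sum_congr rfl fun t _ => ?_
  rw [gram_symm M x t s]
  ring

lemma H_al_right (x : ℝ) (v : S → ℂ) (t : S) :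
    H M x v (al t) = ∑ s, v s * (gram M x s t : ℂ) := by
  unfold H al
  refine sum_congr rfl fun s _ => ?_
  rw [sum_eq_single t]
  · simp
  · intro b _ hb
    simp [hb]
  · simp

lemma H_al_al (x : ℝ) (s t : S) : H M x (al s) (al t) = gram M x s t := by
  rw [H_al_right, sum_eq_single s]
  · simp [al]
  · intro b _ hb
    simp [al, hb]
  · simp

lemma H_expand (x : ℝ) (v w : S → ℂ) : H M x v w = ∑ t, H M x v (al t) * conj (w t) := by
  simp only [H_al_right, sum_mul]
  unfold H
  rw [sum_comm]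

lemma Q_add (x : ℝ) (v w : S → ℂ) :
    Q M x (v + w) = Q M x v + Q M x w + 2 * (H M x w v).re := by
  unfold Q
  rw [H_add_left, H_add_right, H_add_right, ← H_conj M x w v]
  simp only [add_re, conj_re]
  ring

lemma Q_smul (x : ℝ) (c : ℂ) (v : S → ℂ) : Q M x (c • v) = ‖c‖ ^ 2 * Q M x v := by
  unfold Q
  rw [H_smul_left, H_smul_right, ← mul_assoc, mul_conj, normSq_eq_norm_sq, re_ofReal_mul]

lemma Q_mid (x : ℝ) (a b : S → ℂ) :
    Q M x ((1 / 2 : ℂ) • (a + b)) = (Q M x a + Q M x b) / 2 - Q M x (b - a) / 4 := by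
  rw [Q_smul]
  unfold Q
  rw [H_add_left, H_add_right, H_add_right, H_sub_left, H_sub_right, H_sub_right]
  simp only [add_re, sub_re, one_div, norm_inv, Complex.norm_ofNat]
  ring

lemma Q_al (x : ℝ) (s : S) : Q M x (al s) = x := by
  unfold Q
  rw [H_al_al, gram_self, ofReal_re]

lemma continuous_Q (x : ℝ) : Continuous (Q M x : (S → ℂ) → ℝ) := by
  unfold Q H
  fun_prop

/-- The deformation parameter. -/
structure Par where
  x : ℝ
  r : ℂ
  hr : r * conj r = 1
  hx : (x : ℂ) = r + conj r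

/-- The undeformed parameter. -/
noncomputable def Par.one : Par := ⟨2, 1, by simp, by norm_num⟩

/-- Rank one perturbation of the identity. -/
noncomputable def T0 (x : ℝ) (c : ℂ) (s : S) : (S → ℂ) →ₗ[ℂ] (S → ℂ) where
  toFun v := v - (c * H M x v (al s)) • al s
  map_add' u v := by
    rw [H_add_left, mul_add, add_smul]
    abel
  map_smul' a v := by
    rw [H_smul_left, RingHom.id_apply, smul_sub, smul_smul]
    congr 2
    ring

lemma T0_apply (x : ℝ) (c : ℂ) (s : S) (v : S → ℂ) :
    T0 M x c s v = v - (c * H M x v (al s)) • al s := rfl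

lemma T0_T0 (x : ℝ) (c d : ℂ) (h : c + d = c * d * x) (s : S) (v : S → ℂ) :
    T0 M x c s (T0 M x d s v) = v := by
  rw [T0_apply, T0_apply, H_sub_left, H_smul_left, H_al_al, gram_self, sub_sub, ← add_smul]
  have : d * H M x v (al s) + c * (H M x v (al s) - d * H M x v (al s) * x) = 0 := by
    linear_combination (H M x v (al s)) * h
  rw [this, zero_smul, sub_zero]

/-- The deformed reflections. -/
noncomputable def T (p : Par) (s : S) : (S → ℂ) ≃ₗ[ℂ] (S → ℂ) :=
  LinearEquiv.ofLinearMap (T0 M p.x p.r s) (T0 M p.x (conj p.r) s)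
    (LinearMap.ext fun v => T0_T0 M p.x _ _ (by rw [p.hr, p.hx, one_mul]) s v)
    (LinearMap.ext fun v => T0_T0 M p.x _ _ (by rw [mul_comm (conj p.r), p.hr, p.hx]; ring) s v)

lemma T_apply (p : Par) (s : S) (v : S → ℂ) :
    T M p s v = v - (p.r * H M p.x v (al s)) • al s := rfl

lemma T_al_self (p : Par) (s : S) : T M p s (al s) = (-p.r ^ 2) • al s := by
  rw [T_apply, H_al_al, gram_self]
  have : -p.r ^ 2 = 1 - p.r * p.x := by
    rw [p.hx]
    linear_combination p.hr
  rw [this, sub_smul, one_smul]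

lemma T_al_ne (p : Par) {s t : S} (h : s ≠ t) :
    T M p s (al t) = al t + (p.r * cc M s t) • al s := by
  rw [T_apply, H_al_al, gram_ne M _ h.symm, cc_symm M t s]
  push_cast
  rw [mul_neg, neg_smul, sub_neg_eq_add]

/-- The unitary group of the form. -/
def Uni (x : ℝ) : Subgroup ((S → ℂ) ≃ₗ[ℂ] (S → ℂ)) where
  carrier := {g | ∀ v w, H M x (g v) (g w) = H M x v w}
  one_mem' := fun _ _ => rfl
  mul_mem' := by
    intro a b ha hb v w
    rw [LinearEquiv.mul_apply, LinearEquiv.mul_apply, ha, hb]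
  inv_mem' := by
    intro a ha v w
    rw [← ha, ← LinearEquiv.mul_apply, ← LinearEquiv.mul_apply, mul_inv_cancel]
    rfl

lemma mem_Uni {x : ℝ} {g : (S → ℂ) ≃ₗ[ℂ] (S → ℂ)} :
    g ∈ Uni M x ↔ ∀ v w, H M x (g v) (g w) = H M x v w := Iff.rfl

lemma T_mem (p : Par) (s : S) : T M p s ∈ Uni M p.x := by
  intro v w
  rw [T_apply, T_apply, H_sub_left, H_sub_right, H_sub_right, H_smul_left, H_smul_right,
    H_smul_left, H_smul_right, H_al_al, gram_self, ← H_conj M p.x w (al s), map_mul, p.hx]
  linear_combination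
    (H M p.x v (al s) * conj (H M p.x w (al s)) * (p.r + conj p.r)) * p.hr

lemma altProd_mem {G : Type*} [Group G] (K : Subgroup G) {a b : G} (ha : a ∈ K) (hb : b ∈ K)
    (k : ℕ) : altProd a b k ∈ K := by
  induction k generalizing a b with
  | zero => exact K.one_mem
  | succ k ih => exact K.mul_mem ha (ih hb ha)

lemma conj_T (p : Par) {g : (S → ℂ) ≃ₗ[ℂ] (S → ℂ)} (hg : g ∈ Uni M p.x) {s t : S} {ζ : ℂ}
    (hζ : ζ * conj ζ = 1) (h : g (al s) = ζ • al t) : g * T M p s = T M p t * g := by
  refine LinearEquiv.ext fun v => ?_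
  rw [LinearEquiv.mul_apply, LinearEquiv.mul_apply, T_apply, T_apply, map_sub, map_smul, h,
    smul_smul, ← hg v (al s), h, H_smul_right]
  congr 2
  linear_combination (p.r * H M p.x (g v) (al t)) * hζ

/-- Chebyshev values. -/
noncomputable def U (m k : ℕ) : ℝ := Real.sin (k * (Real.pi / m)) / Real.sin (Real.pi / m)

lemma sin_pos_of_two_le {m : ℕ} (hm : 2 ≤ m) : 0 < Real.sin (Real.pi / m) := by
  have h2 : (2 : ℝ) ≤ m := by exact_mod_cast hm
  apply Real.sin_pos_of_pos_of_lt_pi
  · exact div_pos Real.pi_pos (by linarith)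
  · exact div_lt_self Real.pi_pos (by linarith)

lemma U_zero (m : ℕ) : U m 0 = 0 := by simp [U]

lemma U_one {m : ℕ} (hm : 2 ≤ m) : U m 1 = 1 := by
  simp [U, (sin_pos_of_two_le hm).ne']

lemma U_rec (m k : ℕ) :
    U m (k + 2) = 2 * Real.cos (Real.pi / m) * U m (k + 1) - U m k := by
  unfold U
  have e1 : ((k + 2 : ℕ) : ℝ) * (Real.pi / m) = ((k + 1 : ℕ) : ℝ) * (Real.pi / m) + Real.pi / m := by
    push_cast; ring
  have e2 : (k : ℝ) * (Real.pi / m) = ((k + 1 : ℕ) : ℝ) * (Real.pi / m) - Real.pi / m := by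
    push_cast; ring
  rw [e1, e2, Real.sin_add, Real.sin_sub]
  ring

lemma U_self {m : ℕ} (hm : 2 ≤ m) : U m m = 0 := by
  have h2 : (m : ℝ) ≠ 0 := by positivity
  unfold U
  rw [mul_div_cancel₀ _ h2, Real.sin_pi, zero_div]

lemma U_pred {m : ℕ} (hm : 2 ≤ m) : U m (m - 1) = 1 := by
  have h2 : (m : ℝ) ≠ 0 := by positivity
  unfold U
  have : ((m - 1 : ℕ) : ℝ) * (Real.pi / m) = Real.pi - Real.pi / m := by
    rw [Nat.cast_sub (by omega)]
    field_simp
    simp
  rw [this, Real.sin_pi_sub, div_self (sin_pos_of_two_le hm).ne']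

lemma U_two_mul {m : ℕ} (hm : 2 ≤ m) : U m (2 * m) = 0 := by
  have h2 : (m : ℝ) ≠ 0 := by positivity
  unfold U
  have : ((2 * m : ℕ) : ℝ) * (Real.pi / m) = 2 * Real.pi := by
    push_cast
    field_simp
  rw [this, Real.sin_two_pi, zero_div]

lemma U_two_mul_succ {m : ℕ} (hm : 2 ≤ m) : U m (2 * m + 1) = 1 := by
  have h2 : (m : ℝ) ≠ 0 := by positivity
  unfold U
  have : ((2 * m + 1 : ℕ) : ℝ) * (Real.pi / m) = Real.pi / m + 2 * Real.pi := by
    push_cast
    field_simp
    ring
  rw [this, Real.sin_add_two_pi, div_self (sin_pos_of_two_le hm).ne']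

lemma U_nonneg {m k : ℕ} (hm : 2 ≤ m) (hk : k ≤ m) : 0 ≤ U m k := by
  have h2 : (0 : ℝ) < m := by positivity
  have h3 : (k : ℝ) ≤ m := by exact_mod_cast hk
  refine div_nonneg ?_ (sin_pos_of_two_le hm).le
  apply Real.sin_nonneg_of_nonneg_of_le_pi
  · positivity
  · rw [mul_div_assoc', div_le_iff₀ h2]
    nlinarith [Real.pi_pos]

omit [Fintype S] [DecidableEq S] in
lemma two_le {s t : S} (hst : s ≠ t) (h0 : M s t ≠ 0) : 2 ≤ M s t := by
  have := M.off_diagonal s t hst
  omega

lemma alt_apply (p : Par) {a b : S} (hab : a ≠ b) (h0 : M a b ≠ 0) (k : ℕ) :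
    altProd (T M p a) (T M p b) k (if Even k then al a else al b) =
      (p.r ^ k * U (M a b) (k + 1)) • al a + (p.r ^ k * conj p.r * U (M a b) k) • al b := by
  induction k generalizing a b with
  | zero => simp [U_zero, U_one (two_le M hab h0)]
  | succ k ih =>
    have h0' : M b a ≠ 0 := by rwa [M.symmetric b a]
    have e : (if Even (k + 1) then al a else al b : S → ℂ) = if Even k then al b else al a := by
      by_cases h : Even k <;> simp [h, Nat.even_add_one]
    rw [altProd_succ, LinearEquiv.mul_apply, e, ih hab.symm h0', map_add, map_smul, map_smul,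
      T_al_self, T_al_ne M p hab, M.symmetric b a, smul_add, smul_smul, smul_smul, U_rec, cc,
      if_neg hab, add_assoc, ← add_smul, add_comm]
    congr 2
    · push_cast
      linear_combination (-(p.r ^ (k + 1)) * (U (M a b) k : ℂ)) * p.hr
    · linear_combination (-(p.r ^ k) * (U (M a b) (k + 1) : ℂ)) * p.hr

lemma pow_unit (p : Par) (k : ℕ) : p.r ^ k * conj (p.r ^ k) = 1 := by
  rw [map_pow, ← mul_pow, p.hr, one_pow]

lemma T_braid (p : Par) {a b : S} (hab : a ≠ b) (h0 : M a b ≠ 0) :
    altProd (T M p a) (T M p b) (M a b) = altProd (T M p b) (T M p a) (M a b) := by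
  have hm := two_le M hab h0
  obtain ⟨k, hk⟩ : ∃ k, M a b = k + 1 := ⟨M a b - 1, by omega⟩
  have h1 := alt_apply M p hab h0 k
  have hU1 : U (M a b) (k + 1) = 0 := by rw [← hk]; exact U_self hm
  have hU2 : U (M a b) k = 1 := by
    have := U_pred hm
    rwa [show M a b - 1 = k by omega] at this
  rw [hU1, hU2] at h1
  simp only [ofReal_zero, mul_zero, zero_smul, zero_add, ofReal_one, mul_one] at h1
  have hζ : (p.r ^ k * conj p.r) * conj (p.r ^ k * conj p.r) = 1 := by
    rw [map_mul, conj_conj]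
    linear_combination (p.r ^ k * conj (p.r ^ k)) * p.hr + pow_unit p k
  have hg := altProd_mem (Uni M p.x) (T_mem M p a) (T_mem M p b) k
  rw [hk, altProd_succ (T M p b), altProd_succ']
  by_cases h : Even k
  · rw [if_pos h] at h1 ⊢
    exact conj_T M p hg hζ h1
  · rw [if_neg h] at h1 ⊢
    exact conj_T M p hg hζ h1

lemma T_pow_al (p : Par) {a b : S} (hab : a ≠ b) (h0 : M a b ≠ 0) :
    ((T M p a * T M p b) ^ M a b) (al a) = (p.r ^ (2 * M a b)) • al a := by
  have hm := two_le M hab h0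
  have h1 := alt_apply M p hab h0 (2 * M a b)
  rw [if_pos (even_two_mul _), U_two_mul hm, U_two_mul_succ hm, altProd_two_mul] at h1
  simpa using h1

/-- The representation of the Artin group. -/
noncomputable def rho (p : Par) : ArtinGroup M →* ((S → ℂ) ≃ₗ[ℂ] (S → ℂ)) :=
  artinLift M (T M p) fun _ _ hst h0 => T_braid M p hst h0

@[simp] lemma rho_gen (p : Par) (s : S) : rho M p (gen M s) = T M p s := artinLift_gen _ _ _ _

lemma rho_mem (p : Par) (g : ArtinGroup M) : rho M p g ∈ Uni M p.x := by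
  refine PresentedGroup.generated_by _ ((Uni M p.x).comap (rho M p)) (fun j => ?_) g
  rw [Subgroup.mem_comap]
  have : (PresentedGroup.of j : ArtinGroup M) = gen M j := rfl
  rw [this, rho_gen]
  exact T_mem M p j

lemma T_one_sq (s : S) : T M Par.one s * T M Par.one s = 1 := by
  refine LinearEquiv.ext fun v => ?_
  exact T0_T0 M 2 1 1 (by norm_num) s v

lemma liftable : M.IsLiftable (T M Par.one) := by
  intro s t
  by_cases hst : s = t
  · subst hst
    rw [M.diagonal, pow_one, T_one_sq]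
  by_cases h0 : M s t = 0
  · rw [h0, pow_zero]
  exact pow_eq_one_of_braid (T_one_sq M s) (T_one_sq M t) (T_braid M Par.one hst h0)

/-- The geometric representation of the Coxeter group. -/
noncomputable def sig : M.Group →* ((S → ℂ) ≃ₗ[ℂ] (S → ℂ)) :=
  M.toCoxeterSystem.lift ⟨T M Par.one, liftable M⟩

@[simp] lemma sig_simple (s : S) : sig M (M.toCoxeterSystem.simple s) = T M Par.one s :=
  M.toCoxeterSystem.lift_apply_simple _ s

lemma sig_mem (w : M.Group) : sig M w ∈ Uni M 2 := by
  refine M.toCoxeterSystem.simple_induction (p := fun w => sig M w ∈ Uni M 2) w ?_ ?_ ?_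
  · intro i
    rw [sig_simple]
    exact T_mem M Par.one i
  · rw [map_one]
    exact one_mem _
  · intro a b ha hb
    rw [map_mul]
    exact mul_mem ha hb

end Pool.Agent.P.MP_5d3202_gt
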