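import Pool.Agent.P.MP_5d3202_gt.Cox
import Pool.Agent.P.MP_5d3202_gt.Anal

/-! Elements of `X_P` act with uniformly bounded norm, the centraliser of a generator does not. -/

set_option autoImplicit false

namespace Pool.Agent.P.MP_5d3202_gt

open Complex ComplexConjugate Finset

variable {S : Type*} [Fintype S] [DecidableEq S] (M : CoxeterMatrix S)

lemma coord_fixed (p : Par) {A : Set S} {u : S} (hu : u ∉ A) {g : ArtinGroup M}
    (hg : g ∈ parabolic M A) : ∀ v, rho M p g v u = v u := by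
  induction hg using Subgroup.closure_induction with
  | mem x hx =>
    obtain ⟨s, hs, rfl⟩ := hx
    have hus : u ≠ s := fun h => hu (h ▸ hs)
    intro v
    rw [rho_gen, T_apply]
    simp [al, hus]
  | one =>
    intro v
    rw [map_one]
    rfl
  | mul x y _ _ hx hy =>
    intro v
    rw [map_mul, LinearEquiv.mul_apply, hx, hy]
  | inv x _ hx =>
    intro v
    rw [← hx (rho M p x⁻¹ v), ← LinearEquiv.mul_apply, ← map_mul, mul_inv_cancel, map_one]
    rfl

lemma H_bound (x : ℝ) : ∃ K : ℝ, 0 ≤ K ∧ ∀ v w : S → ℂ, ‖H M x v w‖ ≤ K * ‖v‖ * ‖w‖ := by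
  refine ⟨∑ s, ∑ t, |gram M x s t|, by positivity, fun v w => ?_⟩
  unfold H
  rw [sum_mul, sum_mul]
  refine norm_sum_le_of_le _ fun s _ => ?_
  rw [sum_mul, sum_mul]
  refine norm_sum_le_of_le _ fun t _ => ?_
  rw [norm_mul, norm_mul, norm_conj, norm_real, Real.norm_eq_abs, mul_comm ‖v s‖]
  gcongr
  · exact norm_le_pi_norm v s
  · exact norm_le_pi_norm w t

lemma bound_of_coord {x η K : ℝ} (hη : 0 < η) (hK : 0 ≤ K)
    (hH : ∀ v w : S → ℂ, ‖H M x v w‖ ≤ K * ‖v‖ * ‖w‖)
    (hpos : ∀ (u : S) (v : S → ℂ), v u = 0 → η * ‖v‖ ^ 2 ≤ Q M x v)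
    {g : (S → ℂ) ≃ₗ[ℂ] (S → ℂ)} (hg : g ∈ Uni M x) {u : S} (hu : ∀ v, g v u = v u)
    (v : S → ℂ) : ‖g v‖ ≤ (1 + 2 * K / η) * ‖v‖ := by
  set w := g v - v with hw
  have e : g v = v + w := by rw [hw]; abel
  have h1 := Q_uni M hg v
  rw [e, Q_add] at h1
  have h2 := hpos u w (by simp [hw, hu])
  have h3 : -(H M x w v).re ≤ K * ‖w‖ * ‖v‖ :=
    ((neg_le_abs _).trans (abs_re_le_norm _)).trans (hH w v)
  have h4 : ‖w‖ ≤ 2 * K / η * ‖v‖ := by
    rcases (norm_nonneg w).eq_or_lt with h0 | h0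
    · rw [← h0]
      positivity
    · rw [div_mul_eq_mul_div, le_div_iff₀ hη]
      have : ‖w‖ * (‖w‖ * η) ≤ ‖w‖ * (2 * K * ‖v‖) := by nlinarith
      exact le_of_mul_le_mul_left this h0
  rw [e]
  have := norm_add_le v w
  linarith

lemma gen_injective : Function.Injective (gen M) := by
  intro s t h
  by_contra hne
  have h1 : T M Par.one s (al s) s = T M Par.one t (al s) s := by
    rw [← rho_gen, ← rho_gen, h]
  rw [T_al_self, T_al_ne M _ (Ne.symm hne)] at h1
  simp [al, Par.one, hne] at h1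
  norm_num at h1

/-- Elements whose conjugation action permutes the generators. -/
def Perm : Subgroup (ArtinGroup M) where
  carrier := {g | ∀ s, ∃ t, g * gen M s = gen M t * g}
  one_mem' := fun s => ⟨s, by simp⟩
  mul_mem' := by
    intro a b ha hb s
    obtain ⟨t, ht⟩ := hb s
    obtain ⟨u, hu⟩ := ha t
    exact ⟨u, by rw [mul_assoc, ht, ← mul_assoc, hu, mul_assoc]⟩
  inv_mem' := by
    classical
    intro a ha t
    choose σ hσ using ha
    have hinj : Function.Injective σ := by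
      intro s s' h
      apply gen_injective M
      have := hσ s
      rw [h, ← hσ s'] at this
      exact mul_left_cancel this
    obtain ⟨s, rfl⟩ := Finite.injective_iff_surjective.mp hinj t
    refine ⟨s, ?_⟩
    calc a⁻¹ * gen M (σ s) = a⁻¹ * (gen M (σ s) * a) * a⁻¹ := by group
      _ = a⁻¹ * (a * gen M s) * a⁻¹ := by rw [hσ]
      _ = gen M s * a⁻¹ := by group

lemma bound_perm (p : Par) (hx : p.x ≠ 0) {g : ArtinGroup M} (hg : g ∈ Perm M) (v : S → ℂ) :
    ‖rho M p g v‖ ≤ Fintype.card S * ‖v‖ := by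
  have h1 : ∀ s, ‖rho M p g (al s)‖ = 1 := by
    intro s
    obtain ⟨t, ht⟩ := hg s
    set y := rho M p g (al s) with hy
    have e1 : T M p t y = (-p.r ^ 2) • y := by
      rw [hy, ← rho_gen, ← LinearEquiv.mul_apply, ← map_mul, ← ht, map_mul,
        LinearEquiv.mul_apply, rho_gen, T_al_self, map_smul]
    rw [T_apply] at e1
    have hr0 : p.r ≠ 0 := left_ne_zero_of_mul_eq_one p.hr
    have hx' : (p.x : ℂ) ≠ 0 := by exact_mod_cast hx
    have e2 : y = (H M p.x y (al t) / p.x) • al t := by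
      have e3 : (p.r * p.x) • y = (p.r * H M p.x y (al t)) • al t := by
        have : p.r * p.x = 1 - -p.r ^ 2 := by
          rw [p.hx]
          linear_combination p.hr
        rw [this, sub_smul, one_smul, ← e1, sub_sub_cancel]
      have e4 := congrArg (fun z => (p.r * p.x)⁻¹ • z) e3
      simp only [smul_smul] at e4
      rw [inv_mul_cancel₀ (mul_ne_zero hr0 hx'), one_smul] at e4
      rw [e4]
      congr 1
      rw [← e4]
      field_simp
    have e5 := Q_uni M (rho_mem M p g) (al s)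
    rw [← hy, e2, Q_smul, Q_al, Q_al] at e5
    have e6 : ‖H M p.x y (al t) / p.x‖ ^ 2 = 1 := by
      apply mul_right_cancel₀ hx
      rw [e5, one_mul]
    rw [e2, norm_smul, norm_al, mul_one]
    exact (pow_eq_one_iff_of_nonneg (norm_nonneg _) two_ne_zero).mp e6
  rw [expand]
  calc ‖∑ t, v t • rho M p g (al t)‖ ≤ ∑ _t : S, ‖v‖ := by
        refine norm_sum_le_of_le _ fun t _ => ?_
        rw [norm_smul, h1, mul_one]
        exact norm_le_pi_norm v t
    _ = _ := by simp

lemma orth_of_fixed {x : ℝ} {g : (S → ℂ) ≃ₗ[ℂ] (S → ℂ)} (hg : g ∈ Uni M x) {v : S → ℂ}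
    (hv : g v = v) {t : S} {ζ : ℂ} (hζ : ζ ≠ 1) (h : g (al t) = ζ • al t) :
    H M x v (al t) = 0 := by
  have h1 := hg v (al t)
  rw [hv, h, H_smul_right] at h1
  have h2 : conj ζ - 1 ≠ 0 := by
    intro h3
    apply hζ
    have := congrArg conj (sub_eq_zero.mp h3)
    simpa using this
  apply mul_left_cancel₀ h2
  linear_combination h1

omit [DecidableEq S] in
lemma properIrred_singleton (h3 : 3 ≤ Fintype.card S) (s : S) : ProperIrred M {s} := by
  refine ⟨?_, SimpleGraph.Connected.of_subsingleton⟩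
  obtain ⟨u, hu, -⟩ := exists_third h3 s s
  intro h
  exact hu (by simpa using h.ge (Set.mem_univ u))

omit [Fintype S] [DecidableEq S] in
lemma exists_list {X : Set (ArtinGroup M)} (hX : ∀ s, gen M s ∈ X) (g : ArtinGroup M) :
    ∃ l : List (ArtinGroup M), (∀ x ∈ l, x ∈ X ∨ x⁻¹ ∈ X) ∧ l.prod = g := by
  have hg : g ∈ Subgroup.closure (Set.range (gen M)) := by
    have := PresentedGroup.closure_range_of (braidRels M)
    exact this.ge (Subgroup.mem_top g)
  induction hg using Subgroup.closure_induction_left with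
  | one => exact ⟨[], by simp, rfl⟩
  | mul_left x hx y _ ih =>
    obtain ⟨s, rfl⟩ := hx
    obtain ⟨l, hl, rfl⟩ := ih
    refine ⟨gen M s :: l, ?_, by simp⟩
    intro z hz
    rcases List.mem_cons.mp hz with rfl | hz
    · exact Or.inl (hX s)
    · exact hl z hz
  | inv_mul_cancel x hx y _ ih =>
    obtain ⟨s, rfl⟩ := hx
    obtain ⟨l, hl, rfl⟩ := ih
    refine ⟨(gen M s)⁻¹ :: l, ?_, by simp⟩
    intro z hz
    rcases List.mem_cons.mp hz with rfl | hz
    · exact Or.inr (by simpa using hX s)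
    · exact hl z hz

theorem unbounded [Finite M.Group] (hconn : (coxGraph M).Connected) (h3 : 3 ≤ Fintype.card S)
    {Δ : ArtinGroup M} (hΔ : IsGarside M Δ) (N : ℕ) :
    ∃ g ∈ XNP M, N < wordLength (XP M Δ) g := by
  obtain ⟨hM, p, ⟨v₀, hv₀⟩, ⟨η, hη, hpos⟩, hr⟩ := exists_par M hconn h3
  obtain ⟨s⟩ : Nonempty S := Fintype.card_pos_iff.mp (by omega)
  obtain ⟨K, hK, hH⟩ := H_bound M p.x
  have hx : p.x ≠ 0 := by
    obtain ⟨u, hu, -⟩ := exists_third h3 s s
    have h1 := hpos u (al s) (by simp [al, hu])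
    rw [Q_al, norm_al] at h1
    linarith
  set C : ℝ := 1 + 2 * K / η + Fintype.card S with hC
  have hKη : 0 ≤ 2 * K / η := by positivity
  have hC1 : 1 ≤ C := by
    have : (0 : ℝ) ≤ Fintype.card S := by positivity
    linarith
  have hXP : ∀ g : ArtinGroup M, (g ∈ XP M Δ ∨ g⁻¹ ∈ XP M Δ) →
      ∀ v, ‖rho M p g v‖ ≤ C * ‖v‖ := by
    intro g hg v
    have hpar : ∀ A : Set S, A ≠ Set.univ → g ∈ parabolic M A → ‖rho M p g v‖ ≤ C * ‖v‖ := by
      intro A hA hgA
      obtain ⟨u, hu⟩ := (Set.ne_univ_iff_exists_notMem A).mp hA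
      refine (bound_of_coord M hη hK hH hpos (rho_mem M p g) (coord_fixed M p hu hgA) v).trans ?_
      gcongr
      have : (0 : ℝ) ≤ Fintype.card S := by positivity
      linarith
    have hz : g ∈ Subgroup.zpowers (Δ ^ 2) → ‖rho M p g v‖ ≤ C * ‖v‖ := by
      intro hg
      have h1 : Δ ∈ Perm M := garside_conj M hM hΔ
      have h2 : g ∈ Perm M := (Subgroup.zpowers_le.mpr (pow_mem h1 2)) hg
      refine (bound_perm M p hx h2 v).trans ?_
      gcongr
      linarith
    rcases hg with (⟨A, hA, hgA⟩ | hg) | (⟨A, hA, hgA⟩ | hg)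
    · exact hpar A hA.1 hgA
    · exact hz hg
    · exact hpar A hA.1 (inv_mem_iff.mp hgA)
    · exact hz (inv_mem_iff.mp hg)
  have hlist : ∀ l : List (ArtinGroup M), (∀ x ∈ l, x ∈ XP M Δ ∨ x⁻¹ ∈ XP M Δ) →
      ‖rho M p l.prod v₀‖ ≤ C ^ l.length * ‖v₀‖ := by
    intro l hl
    induction l with
    | nil => simp
    | cons a l ih =>
      rw [List.prod_cons, map_mul, LinearEquiv.mul_apply, List.length_cons, pow_succ', mul_assoc]
      refine (hXP a (hl a List.mem_cons_self) _).trans ?_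
      exact mul_le_mul_of_nonneg_left (ih fun x hx => hl x (List.mem_cons_of_mem _ hx))
        (by linarith)
  by_contra hcon
  push Not at hcon
  let Γ := Subgroup.normalizer (parabolic M {s} : Set (ArtinGroup M))
  have hΓ : ∀ g ∈ Γ, ‖rho M p g v₀‖ ≤ C ^ N * ‖v₀‖ := by
    intro g hg
    have h1 := hcon g ⟨{s}, properIrred_singleton M h3 s, hg⟩
    obtain ⟨l, hl, hlg⟩ := exists_list M (X := XP M Δ) (fun t =>
      Or.inl ⟨{t}, properIrred_singleton M h3 t, Subgroup.subset_closure ⟨t, rfl, rfl⟩⟩) g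
    obtain ⟨l', hlen, hl', hlg'⟩ := Nat.sInf_mem (s := {n | ∃ l : List (ArtinGroup M),
      l.length = n ∧ (∀ x ∈ l, x ∈ XP M Δ ∨ x⁻¹ ∈ XP M Δ) ∧ l.prod = g}) ⟨_, l, rfl, hl, hlg⟩
    have h2 : l'.length ≤ N := hlen.le.trans h1
    rw [← hlg']
    refine (hlist l' hl').trans ?_
    gcongr
  obtain ⟨v, hv, hmin⟩ := exists_min M (Γ.map (rho M p)) (x := p.x)
    (by rintro _ ⟨g, -, rfl⟩; exact rho_mem M p g) hv₀ (R := C ^ N * ‖v₀‖)
    (by rintro _ ⟨g, hg, rfl⟩; exact hΓ g hg)
  have key : ∀ t, s ≠ t → H M p.x v (al s) = 0 ∧ H M p.x v (al t) = 0 := by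
    intro t hst
    have hbr := gen_braid M hst (hM s t)
    set z := (gen M s * gen M t) ^ M s t with hz
    have hzΓ : z ∈ Γ := by
      apply Subgroup.centralizer_le_normalizer
      rw [Subgroup.mem_centralizer_iff]
      intro h hh
      have h1 : parabolic M {s} ≤ Subgroup.centralizer {z} := by
        rw [parabolic, Subgroup.closure_le]
        rintro _ ⟨_, rfl, rfl⟩
        rw [SetLike.mem_coe, Subgroup.mem_centralizer_singleton_iff]
        exact commute_of_braid hbr
      exact Subgroup.mem_centralizer_singleton_iff.mp (h1 hh)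
    have hsP : gen M s ∈ parabolic M {s, t} :=
      Subgroup.subset_closure (Set.mem_image_of_mem _ (by simp))
    have htP : gen M t ∈ parabolic M {s, t} :=
      Subgroup.subset_closure (Set.mem_image_of_mem _ (by simp))
    have hzP : z ∈ parabolic M {s, t} := pow_mem (mul_mem hsP htP) _
    obtain ⟨u, hus, hut⟩ := exists_third h3 s t
    have hc := coord_fixed M p (u := u) (by simp [hus, hut]) hzP
    have h1 := hmin _ ⟨z, hzΓ, rfl⟩
    have h2 := hpos u (rho M p z v - v) (by simp [hc])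
    have h4 : rho M p z v = v := by
      have h5 : ‖rho M p z v - v‖ ^ 2 ≤ 0 := by
        by_contra h6
        have := mul_pos hη (not_le.mp h6)
        linarith
      have h7 := pow_eq_zero_iff two_ne_zero |>.mp (le_antisymm h5 (sq_nonneg _))
      exact sub_eq_zero.mp (norm_eq_zero.mp h7)
    constructor
    · refine orth_of_fixed M (rho_mem M p z) h4 (hr s t) ?_
      rw [hz, map_pow, map_mul, rho_gen, rho_gen]
      exact T_pow_al M p hst (hM s t)
    · refine orth_of_fixed M (rho_mem M p z) h4 (hr t s) ?_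
      rw [hz, pow_comm_of_braid hbr, map_pow, map_mul, rho_gen, rho_gen, M.symmetric s t]
      exact T_pow_al M p hst.symm (hM t s)
  refine hv.ne (Q_eq_zero_of_orth M fun t => ?_)
  by_cases hst : s = t
  · subst hst
    obtain ⟨u, hu, -⟩ := exists_third h3 s s
    exact (key u hu.symm).1
  · exact (key t hst).2

end Pool.Agent.P.MP_5d3202_gt
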